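import Mathlib
import Pool.Agent.H.MP_12bcff_ag.Orbit

namespace Pool.Agent.Results.MP_2dcdad_ag.TwoLimits

open MvPolynomial

open Pool.Agent.H.MP_12bcff_ag in
theorem result (F : Type) [Field F] [Finite F] :
    ∃ (G : Fin 2 → MvPolynomial (Fin 2) F) (Y : Ideal (MvPolynomial (Fin 2) F))
      (T : (Fin 2 → AlgebraicClosure F) → (Fin 2 → AlgebraicClosure F))
      (P Q : Fin 2 → AlgebraicClosure F),
      (∀ y i, T y i = aeval y (G i)) ∧
      (vanishingIdeal (AlgebraicClosure F) (zeroLocus (AlgebraicClosure F) Y)).IsPrime ∧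
      P ≠ Q ∧ (∀ y, T y = y ↔ y = P ∨ y = Q) ∧
      (∀ y ∈ zeroLocus (AlgebraicClosure F) Y, ∃ k, 1 ≤ k ∧ T (T^[k] y) = T^[k] y) ∧
      (∃ y ∈ zeroLocus (AlgebraicClosure F) Y, ∃ k, 1 ≤ k ∧ T^[k] y = P) ∧
      (∃ y ∈ zeroLocus (AlgebraicClosure F) Y, ∃ k, 1 ≤ k ∧ T^[k] y = Q) := by
  obtain ⟨T, hT⟩ : ∃ T : (Fin 2 → AlgebraicClosure F) → (Fin 2 → AlgebraicClosure F),
    T = fun y => ![y 0 + y 1, (y 0 + y 1) * (y 0 + y 1 - 1) * y 0] := ⟨_, rfl⟩
  have hfix : ∀ y, T y = y ↔ y = ![0, 0] ∨ y = ![1, 0] := by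
    intro y
    constructor
    · intro e
      have e0 := congrFun e 0
      have e1 := congrFun e 1
      simp only [hT, Matrix.cons_val_zero, Matrix.cons_val_one, add_eq_left] at e0 e1
      simp only [e0, add_zero, mul_eq_zero, sub_eq_zero] at e1
      rcases e1 with (h | h) | h
      · left; ext i; fin_cases i <;> simp [h, e0]
      · right; ext i; fin_cases i <;> simp [h, e0]
      · left; ext i; fin_cases i <;> simp [h, e0]
    · rintro (rfl | rfl) <;> ext i <;> fin_cases i <;> simp [hT]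
  refine ⟨![X 0 + X 1, (X 0 + X 1) * (X 0 + X 1 - 1) * X 0], Ideal.span {X 0}, T, ![0, 0], ![1, 0],
    fun y i => by fin_cases i <;> simp [hT], ?_, fun h => by simpa using congrFun h 0, hfix,
    fun y hy => ?_, ⟨![0, 0], (mem_line _ _ _).mpr rfl, 1, le_rfl, (hfix _).mpr (Or.inl rfl)⟩,
    ⟨![0, 1], (mem_line _ _ _).mpr rfl, 1, le_rfl, by ext i; fin_cases i <;> simp [hT]⟩⟩
  · have e : zeroLocus (AlgebraicClosure F) (Ideal.span {(X 0 : MvPolynomial (Fin 2) F)}) =
        zeroLocus (AlgebraicClosure F)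
          (Ideal.span {(X 0 : MvPolynomial (Fin 2) (AlgebraicClosure F))}) := by
      ext y
      rw [mem_line, mem_line]
    have hp : (Ideal.span {(X 0 : MvPolynomial (Fin 2) (AlgebraicClosure F))}).IsPrime :=
      (Ideal.span_singleton_prime (X_ne_zero _)).mpr X_prime
    rw [e, IsPrime.vanishingIdeal_zeroLocus]
    exact hp
  · rw [mem_line] at hy
    obtain ⟨n, hn⟩ := leave T {y | (y 0 + y 1) * (y 0 + y 1 - 1) ≠ 0} _ (by
      intro a ha b _ e
      have e0 := congrFun e 0
      have e1 := congrFun e 1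
      simp only [hT, Matrix.cons_val_zero, Matrix.cons_val_one] at e0 e1
      rw [← e0] at e1
      have e2 := mul_left_cancel₀ ha e1
      ext i
      fin_cases i
      · exact e2
      · rw [e2] at e0
        exact add_left_cancel e0) (box F (y 1)) (by
      intro a ha i
      have h1 := add_mem (ha 0) (ha 1)
      fin_cases i
      · simpa [hT] using h1
      · simpa [hT] using mul_mem (mul_mem h1 (sub_mem h1 (one_mem _))) (ha 0)) y (by
      intro i
      fin_cases i
      · simp [hy]
      · exact IntermediateField.mem_adjoin_simple_self F _) (by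
      intro a ha e
      have e0 := congrFun e 0
      simp only [hT, Matrix.cons_val_zero] at e0
      exact ha (by rw [e0, hy, zero_mul]))
    refine ⟨n + 1, by omega, (hfix _).mpr ?_⟩
    rw [Function.iterate_succ_apply']
    generalize T^[n] y = z at hn
    simp only [Set.mem_ofPred_eq, ne_eq, not_not, mul_eq_zero, sub_eq_zero] at hn
    rcases hn with h | h
    · left; ext i; fin_cases i <;> simp [hT, h]
    · right; ext i; fin_cases i <;> simp [hT, h]

end Pool.Agent.Results.MP_2dcdad_ag.TwoLimits
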